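import Pool.Agent.Helper84.Kos.Goals2

set_option autoImplicit false

/-!
# Packet G1b: the span of the logarithms satisfies the Engel identity
-/

namespace Pool.Agent.Helper54.Kos

open Pool.Agent.Helper84.Kos Polynomial

section

variable {R : Type} [Ring R] [Algebra ℚ R]

/-- Evaluation at a natural number, a ring homomorphism. -/
noncomputable def evm (m : ℕ) : R[X] →+* R :=
  Polynomial.eval₂RingHom' (RingHom.id R) (m : R) (fun a => (Nat.cast_commute m a).symm)

lemma evm_eq (m : ℕ) (p : R[X]) (N : ℕ) (hN : p.natDegree < N) :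
    evm m p = ∑ i ∈ Finset.range N, (m : ℚ) ^ i • p.coeff i := by
  change p.eval₂ (RingHom.id R) (m : R) = _
  rw [Polynomial.eval₂_eq_sum_range' _ hN]
  refine Finset.sum_congr rfl fun i _ => ?_
  rw [RingHom.id_apply, Algebra.smul_def, map_pow, map_natCast]
  exact ((Nat.cast_commute m (p.coeff i)).pow_left i).eq.symm

@[simp] lemma evm_C (m : ℕ) (a : R) : evm m (C a) = a := by
  change (C a).eval₂ (RingHom.id R) (m : R) = _
  simp

lemma zero_of_ev (hV : StmtGV) {p : R[X]} (h : ∀ m : ℕ, evm m p = 0) : p = 0 := by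
  have := hV R (⊥ : Submodule ℚ R) (p.natDegree + 1) p.coeff (fun m => by
    rw [← evm_eq m p _ (Nat.lt_succ_self _), h m]
    exact Submodule.zero_mem _)
  ext i
  rw [coeff_zero]
  rcases lt_or_ge i (p.natDegree + 1) with hi | hi
  · have h2 := this i hi
    rwa [Submodule.mem_bot] at h2
  · exact coeff_eq_zero_of_natDegree_lt (by omega)

lemma eq_of_ev (hV : StmtGV) {p q : R[X]} (h : ∀ m : ℕ, evm m p = evm m q) : p = q := by
  rw [← sub_eq_zero]
  refine zero_of_ev hV fun m => ?_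
  rw [map_sub, h, sub_self]

/-- The exponential polynomial. -/
noncomputable def EP (l : R) (N : ℕ) : R[X] :=
  ∑ i ∈ Finset.range N, monomial i (((i.factorial : ℕ) : ℚ)⁻¹ • l ^ i)

lemma EP_coeff (l : R) (N i : ℕ) (hi : i < N) : (EP l N).coeff i = ((i.factorial : ℕ) : ℚ)⁻¹ • l ^ i := by
  rw [EP, finsetSum_coeff]
  rw [Finset.sum_eq_single i]
  · rw [coeff_monomial, if_pos rfl]
  · intro j _ hj
    rw [coeff_monomial, if_neg hj]
  · intro h
    exact absurd (Finset.mem_range.2 hi) h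

lemma exp_nsmul {l : R} (hl : IsNilpotent l) (m : ℕ) :
    IsNilpotent.exp ((m : ℚ) • l) = IsNilpotent.exp l ^ m := by
  induction m with
  | zero => simp
  | succ m ih =>
    have e : ((m + 1 : ℕ) : ℚ) • l = (m : ℚ) • l + l := by
      push_cast
      rw [add_smul, one_smul]
    rw [e, IsNilpotent.exp_add_of_commute ((Commute.refl l).smul_left (m : ℚ)) ?_ hl, ih, pow_succ]
    obtain ⟨n, hn⟩ := hl
    exact ⟨n, by rw [_root_.smul_pow, hn, smul_zero]⟩

lemma evm_EP {l : R} {N : ℕ} (hl : l ^ N = 0) (m : ℕ) :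
    evm m (EP l N) = IsNilpotent.exp l ^ m := by
  rw [← exp_nsmul ⟨N, hl⟩, IsNilpotent.exp_eq_sum (k := N) (by rw [_root_.smul_pow, hl, smul_zero]), EP,
    map_sum]
  refine Finset.sum_congr rfl fun i _ => ?_
  change (monomial i (((i.factorial : ℕ) : ℚ)⁻¹ • l ^ i)).eval₂ (RingHom.id R) (m : R) = _
  rw [eval₂_monomial, RingHom.id_apply, _root_.smul_pow]
  have : (m : R) ^ i = algebraMap ℚ R ((m : ℚ) ^ i) := by rw [map_pow, map_natCast]
  rw [this, ← Algebra.commutes, ← Algebra.smul_def, smul_comm]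

end

section

variable {G : Type} [Group G] {R : Type} [Ring R] [Algebra ℚ R] (φ : G →* R)

/-- `e` is the velocity of a polynomial curve in the image of `φ`. -/
def Cur (e : R) : Prop :=
  ∃ (y : ℕ → G) (p p' : R[X]), (∀ m, φ (y m) = evm m p) ∧ (∀ m, φ (y m)⁻¹ = evm m p') ∧
    p.coeff 0 = 1 ∧ p.coeff 1 = e ∧ p'.coeff 0 = 1 ∧ p'.coeff 1 = -e

lemma cur_zero : Cur φ 0 := by
  refine ⟨fun _ => 1, 1, 1, fun m => ?_, fun m => ?_, ?_, ?_, ?_, ?_⟩
  · simp
  · simp
  · simp
  · simp [coeff_one]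
  · simp
  · simp [coeff_one]

variable {φ}

lemma Cur.add {e f : R} (he : Cur φ e) (hf : Cur φ f) : Cur φ (e + f) := by
  obtain ⟨y, p, p', h1, h2, h3, h4, h5, h6⟩ := he
  obtain ⟨z, q, q', g1, g2, g3, g4, g5, g6⟩ := hf
  refine ⟨fun m => y m * z m, p * q, q' * p', fun m => ?_, fun m => ?_, ?_, ?_, ?_, ?_⟩
  · rw [map_mul, map_mul, h1, g1]
  · rw [mul_inv_rev, map_mul, map_mul, h2, g2]
  · rw [mul_coeff_zero, h3, g3, one_mul]
  · rw [mul_coeff_one, h3, h4, g3, g4]
    noncomm_ring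
  · rw [mul_coeff_zero, h5, g5, one_mul]
  · rw [mul_coeff_one, h5, h6, g5, g6]
    noncomm_ring

lemma Cur.neg {e : R} (he : Cur φ e) : Cur φ (-e) := by
  obtain ⟨y, p, p', h1, h2, h3, h4, h5, h6⟩ := he
  refine ⟨fun m => (y m)⁻¹, p', p, h2, fun m => ?_, h5, h6, h3, ?_⟩
  · rw [inv_inv, h1]
  · rw [h4, neg_neg]

lemma Cur.nsmul {e : R} (he : Cur φ e) (n : ℕ) : Cur φ ((n : ℚ) • e) := by
  induction n with
  | zero => simpa using cur_zero φ
  | succ n ih =>
    have e1 : ((n + 1 : ℕ) : ℚ) • e = (n : ℚ) • e + e := by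
      push_cast
      rw [add_smul, one_smul]
    rw [e1]
    exact ih.add he

lemma inv_exp {l : R} (hl : IsNilpotent l) {g : G} (hg : IsNilpotent.exp l = φ g) :
    φ g⁻¹ = IsNilpotent.exp (-l) := by
  have h1 : φ g⁻¹ * φ g = 1 := by rw [← map_mul]; simp
  have h2 : IsNilpotent.exp l * IsNilpotent.exp (-l) = 1 := IsNilpotent.exp_mul_exp_neg_self hl
  calc φ g⁻¹ = φ g⁻¹ * (IsNilpotent.exp l * IsNilpotent.exp (-l)) := by rw [h2, mul_one]
    _ = φ g⁻¹ * φ g * IsNilpotent.exp (-l) := by rw [hg, mul_assoc]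
    _ = IsNilpotent.exp (-l) := by rw [h1, one_mul]

/-- The data attached to an element of `LogSet`. -/
lemma log_data {l : R} (hl : l ∈ LogSet φ) : ∃ (g : G) (N : ℕ), 2 ≤ N ∧
    (∀ m : ℕ, φ (g ^ m) = evm m (EP l N)) ∧ (∀ m : ℕ, φ (g ^ m)⁻¹ = evm m (EP (-l) N)) := by
  obtain ⟨hn, g, hg⟩ := hl
  obtain ⟨n, hn'⟩ := hn
  refine ⟨g, n + 2, by omega, fun m => ?_, fun m => ?_⟩
  · rw [evm_EP (by rw [pow_add, hn', zero_mul]), map_pow, hg]
  · rw [evm_EP (by rw [neg_pow, pow_add l, hn', zero_mul, mul_zero]), ← inv_pow, map_pow,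
      inv_exp ⟨n, hn'⟩ hg]

lemma EP_zero (l : R) {N : ℕ} (hN : 2 ≤ N) : (EP l N).coeff 0 = 1 := by
  rw [EP_coeff _ _ _ (by omega)]
  simp

lemma EP_one (l : R) {N : ℕ} (hN : 2 ≤ N) : (EP l N).coeff 1 = l := by
  rw [EP_coeff _ _ _ (by omega)]
  simp

lemma cur_log {l : R} (hl : l ∈ LogSet φ) : Cur φ l := by
  obtain ⟨g, N, hN, h1, h2⟩ := log_data hl
  exact ⟨fun m => g ^ m, EP l N, EP (-l) N, h1, h2, EP_zero _ hN, EP_one _ hN, EP_zero _ hN,
    EP_one _ hN⟩

lemma cur_span {y : R} (hy : y ∈ Submodule.span ℚ (LogSet φ)) :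
    ∃ n : ℕ, 0 < n ∧ Cur φ ((n : ℚ) • y) := by
  induction hy using Submodule.span_induction with
  | mem x hx => exact ⟨1, one_pos, by simpa using cur_log hx⟩
  | zero => exact ⟨1, one_pos, by simpa using cur_zero φ⟩
  | add x y _ _ hx hy =>
    obtain ⟨a, ha, h1⟩ := hx
    obtain ⟨b, hb, h2⟩ := hy
    refine ⟨a * b, Nat.mul_pos ha hb, ?_⟩
    have e : ((a * b : ℕ) : ℚ) • (x + y) = (b : ℚ) • ((a : ℚ) • x) + (a : ℚ) • ((b : ℚ) • y) := by
      push_cast
      rw [smul_add, smul_smul, smul_smul, mul_comm (b : ℚ)]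
    rw [e]
    exact (h1.nsmul b).add (h2.nsmul a)
  | smul r x _ hx =>
    obtain ⟨a, ha, h1⟩ := hx
    refine ⟨r.den * a, Nat.mul_pos r.den_pos ha, ?_⟩
    have e : ((r.den * a : ℕ) : ℚ) • (r • x) = (r.num : ℚ) • ((a : ℚ) • x) := by
      rw [smul_smul, smul_smul]
      congr 1
      push_cast
      have : (r.den : ℚ) * r = r.num := Rat.den_mul_eq_num r
      calc (r.den : ℚ) * a * r = ((r.den : ℚ) * r) * a := by ring
        _ = r.num * a := by rw [this]
    rw [e]
    rcases Int.eq_nat_or_neg r.num with ⟨n, hn | hn⟩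
    · rw [hn]
      push_cast
      exact h1.nsmul n
    · rw [hn]
      push_cast
      rw [neg_smul]
      exact (h1.nsmul n).neg

/-! ### The iterated commutators -/

/-- The pairs of polynomials of the iterated commutators. -/
noncomputable def Q (p p' u u' : R[X]) : ℕ → R[X] × R[X]
  | 0 => (u, u')
  | j + 1 => ((Q p p' u u' j).2 * p' * (Q p p' u u' j).1 * p,
      p' * (Q p p' u u' j).2 * p * (Q p p' u u' j).1)

lemma Q_ev {p p' u u' : R[X]} {y : G} {x : G} {m : ℕ} (hp : φ y = evm m p)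
    (hp' : φ y⁻¹ = evm m p') (hu : φ x = evm m u) (hu' : φ x⁻¹ = evm m u') (j : ℕ) :
    φ ((fun z : G => z⁻¹ * y⁻¹ * z * y)^[j] x) = evm m (Q p p' u u' j).1 ∧
    φ ((fun z : G => z⁻¹ * y⁻¹ * z * y)^[j] x)⁻¹ = evm m (Q p p' u u' j).2 := by
  induction j with
  | zero => exact ⟨hu, hu'⟩
  | succ j ih =>
    rw [Function.iterate_succ_apply']
    obtain ⟨h1, h2⟩ := ih
    constructor
    · simp only [Q, map_mul, h1, h2, hp, hp']
    · have e : ∀ z : G, (z⁻¹ * y⁻¹ * z * y)⁻¹ = y⁻¹ * z⁻¹ * y * z := by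
        intro z
        group
      rw [e]
      simp only [Q, map_mul, h1, h2, hp, hp']

lemma key (hV : StmtGV) {k : ℕ} (hk : 1 ≤ k) (hG : EngelG k G) {e : R} (he : Cur φ e) (x : G) :
    (fun z : R => z * e - e * z)^[k - 1] (e - φ x⁻¹ * e * φ x) = 0 := by
  obtain ⟨y, p, p', h1, h2, h3, h4, h5, h6⟩ := he
  have hxx : φ x⁻¹ * φ x = 1 := by rw [← map_mul]; simp
  obtain ⟨q, hq⟩ : ∃ q, q = Q p p' (C (φ x)) (C (φ x⁻¹)) := ⟨_, rfl⟩
  have hev : ∀ m j, φ ((fun z : G => z⁻¹ * (y m)⁻¹ * z * y m)^[j] x) = evm m (q j).1 ∧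
      φ ((fun z : G => z⁻¹ * (y m)⁻¹ * z * y m)^[j] x)⁻¹ = evm m (q j).2 := by
    intro m j
    rw [hq]
    exact Q_ev (h1 m) (h2 m) (by simp) (by simp) j
  have hqq : ∀ j, (q j).2 * (q j).1 = 1 := by
    intro j
    refine eq_of_ev hV fun m => ?_
    obtain ⟨a, b⟩ := hev m j
    rw [map_mul, ← a, ← b, ← map_mul, map_one]
    simp
  have hpp : p' * p = 1 := by
    refine eq_of_ev hV fun m => ?_
    rw [map_mul, ← h1, ← h2, ← map_mul, map_one]
    simp
  have hstep : ∀ j, q (j + 1) = ((q j).2 * p' * (q j).1 * p, p' * (q j).2 * p * (q j).1) := by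
    intro j
    rw [hq]
    rfl
  have h0 : q 0 = (C (φ x), C (φ x⁻¹)) := by
    rw [hq]
    rfl
  obtain ⟨B, hB⟩ : ∃ B : R[X], p - 1 = X * B := by
    have : X ∣ p - 1 := by
      rw [X_dvd_iff, coeff_sub, h3, coeff_one_zero, sub_self]
    exact this
  have hB0 : B.coeff 0 = e := by
    have h7 : (X * B).coeff (0 + 1) = B.coeff 0 := coeff_X_mul B 0
    rw [← h7, ← hB, coeff_sub, zero_add, h4]
    simp [coeff_one]
  -- the main induction
  have main : ∀ j, ∃ A : R[X], (q (j + 1)).1 - 1 = X ^ (j + 1) * A ∧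
      A.coeff 0 = (fun z : R => z * e - e * z)^[j] (e - φ x⁻¹ * e * φ x) ∧
      (q (j + 1)).2.coeff 0 = 1 := by
    intro j
    induction j with
    | zero =>
      have c0 : (q 1).1.coeff 0 = 1 := by
        rw [hstep 0, h0]
        simp only [mul_coeff_zero, coeff_C_zero, h3, h5, mul_one]
        exact hxx
      have c1 : (q 1).1.coeff 1 = e - φ x⁻¹ * e * φ x := by
        rw [hstep 0, h0]
        simp only [mul_coeff_one, mul_coeff_zero, coeff_C_zero, coeff_C_succ, h3, h4, h5, h6,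
          mul_one, zero_mul, mul_zero, add_zero, zero_add]
        have : coeff (C (φ x)) 1 = 0 := by simp [coeff_C]
        have h8 : coeff (C (φ x⁻¹)) 1 = 0 := by simp [coeff_C]
        simp only [this, h8, zero_mul, mul_zero, add_zero, zero_add, hxx, one_mul, mul_neg,
          neg_mul]
        abel
      obtain ⟨A, hA⟩ : ∃ A : R[X], (q 1).1 - 1 = X * A := by
        have : X ∣ (q 1).1 - 1 := by
          rw [X_dvd_iff, coeff_sub, c0, coeff_one_zero, sub_self]
        exact this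
      refine ⟨A, by rw [zero_add, pow_one, hA], ?_, ?_⟩
      · have h7 : (X * A).coeff (0 + 1) = A.coeff 0 := coeff_X_mul A 0
        rw [← h7, ← hA, coeff_sub, zero_add, c1]
        simp [coeff_one]
      · rw [hstep 0, h0]
        simp only [mul_coeff_zero, coeff_C_zero, h3, h5, mul_one, one_mul]
        exact hxx
    | succ j ih =>
      obtain ⟨A, hA, hA0, hq0⟩ := ih
      have c0 : (q (j + 1)).1.coeff 0 = 1 := by
        have : (q (j + 1)).1 = 1 + X ^ (j + 1) * A := by rw [← hA]; abel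
        rw [this, coeff_add, mul_coeff_zero]
        simp
      refine ⟨(q (j + 1)).2 * p' * (A * B - B * A), ?_, ?_, ?_⟩
      · rw [hstep (j + 1)]
        have hcomm : ∀ (n : ℕ) (Z : R[X]), Z * X ^ n = X ^ n * Z := fun n Z => X_pow_mul.symm
        have hcX : ∀ Z : R[X], Z * X = X * Z := fun Z => X_mul.symm
        have e1 : (q (j + 1)).2 * p' * (q (j + 1)).1 * p - 1 =
            (q (j + 1)).2 * p' * ((q (j + 1)).1 * p - p * (q (j + 1)).1) := by
          have : (q (j + 1)).2 * p' * (p * (q (j + 1)).1) = 1 := by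
            calc (q (j + 1)).2 * p' * (p * (q (j + 1)).1) =
                (q (j + 1)).2 * (p' * p) * (q (j + 1)).1 := by noncomm_ring
              _ = 1 := by rw [hpp, mul_one, hqq]
          rw [mul_sub, this]
          noncomm_ring
        have e2 : (q (j + 1)).1 * p - p * (q (j + 1)).1 =
            ((q (j + 1)).1 - 1) * (p - 1) - (p - 1) * ((q (j + 1)).1 - 1) := by noncomm_ring
        rw [e1, e2, hA, hB]
        have e3 : X ^ (j + 1) * A * (X * B) = X ^ (j + 1 + 1) * (A * B) := by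
          calc X ^ (j + 1) * A * (X * B) = X ^ (j + 1) * (A * X) * B := by
                simp only [mul_assoc]
            _ = X ^ (j + 1) * (X * A) * B := by rw [hcX]
            _ = X ^ (j + 1 + 1) * (A * B) := by
                rw [pow_succ X (j + 1)]
                simp only [mul_assoc]
        have e4 : X * B * (X ^ (j + 1) * A) = X ^ (j + 1 + 1) * (B * A) := by
          calc X * B * (X ^ (j + 1) * A) = X * (B * X ^ (j + 1)) * A := by
                simp only [mul_assoc]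
            _ = X * (X ^ (j + 1) * B) * A := by rw [hcomm]
            _ = X ^ (j + 1 + 1) * (B * A) := by
                rw [pow_succ' X (j + 1)]
                simp only [mul_assoc]
        rw [e3, e4, ← mul_sub, ← mul_assoc, hcomm, mul_assoc]
      · rw [Function.iterate_succ_apply', ← hA0]
        simp only [mul_coeff_zero, coeff_sub, hq0, h5, hB0, one_mul]
      · rw [hstep (j + 1)]
        simp only [mul_coeff_zero, h3, h5, hq0, c0, one_mul]
  obtain ⟨A, hA, hA0, _⟩ := main (k - 1)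
  have hk1 : k - 1 + 1 = k := by omega
  rw [hk1] at hA
  have hqk : (q k).1 = 1 := by
    refine eq_of_ev hV fun m => ?_
    rw [← (hev m k).1, hG x (y m), map_one, map_one]
  rw [hqk, sub_self] at hA
  rw [← hA0]
  have h7 : (X ^ k * A).coeff (0 + k) = A.coeff 0 := coeff_X_pow_mul A k 0
  rw [← h7, ← hA, coeff_zero]

lemma key2 (hV : StmtGV) {k : ℕ} (hk : 1 ≤ k) (hG : EngelG k G) {e : R} (he : Cur φ e) {ξ : R}
    (hξ : ξ ∈ LogSet φ) : (fun z : R => z * e - e * z)^[k] ξ = 0 := by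
  obtain ⟨g, N, hN, h1, h2⟩ := log_data hξ
  obtain ⟨D, hD⟩ : ∃ D : R[X] → R[X], D = fun z => z * C e - C e * z := ⟨_, rfl⟩
  have hev : ∀ (m j : ℕ) (z : R[X]), evm m (D^[j] z) =
      (fun z : R => z * e - e * z)^[j] (evm m z) := by
    intro m j z
    induction j with
    | zero => rfl
    | succ j ih =>
      rw [Function.iterate_succ_apply', Function.iterate_succ_apply', ← ih, hD]
      simp
  have hco : ∀ (j : ℕ) (z : R[X]), (D^[j] z).coeff 1 =
      (fun z : R => z * e - e * z)^[j] (z.coeff 1) := by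
    intro j z
    induction j with
    | zero => rfl
    | succ j ih =>
      rw [Function.iterate_succ_apply', Function.iterate_succ_apply', ← ih, hD]
      simp
  have hz : D^[k - 1] (C e - EP (-ξ) N * C e * EP ξ N) = 0 := by
    refine zero_of_ev hV fun m => ?_
    rw [hev, map_sub, map_mul, map_mul, evm_C, ← h1, ← h2]
    exact key hV hk hG he (g ^ m)
  have h3 := hco (k - 1) (C e - EP (-ξ) N * C e * EP ξ N)
  rw [hz, coeff_zero] at h3
  have h4 : (C e - EP (-ξ) N * C e * EP ξ N).coeff 1 = ξ * e - e * ξ := by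
    rw [coeff_sub, mul_coeff_one, coeff_mul_C, coeff_mul_C, EP_zero _ hN, EP_one _ hN,
      EP_zero _ hN, EP_one _ hN]
    have : coeff (C e) 1 = 0 := by simp [coeff_C]
    rw [this]
    noncomm_ring
  rw [h4] at h3
  have h5 : (fun z : R => z * e - e * z)^[k] ξ =
      (fun z : R => z * e - e * z)^[k - 1] ((fun z : R => z * e - e * z) ξ) := by
    rw [← Function.iterate_succ_apply]
    congr 1
    omega
  rw [h5]
  exact h3.symm

/-- The iterates as powers of a linear map. -/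
noncomputable def DL (e : R) : R →ₗ[ℚ] R := LinearMap.mulRight ℚ e - LinearMap.mulLeft ℚ e

lemma iter_eq (e : R) (k : ℕ) (x : R) :
    (fun z : R => z * e - e * z)^[k] x = ((DL e) ^ k) x := by
  rw [Module.End.pow_apply]
  rfl

theorem stmtG1b (hV : StmtGV) : StmtG1b := by
  intro k hk G _ hG R _ _ φ x hx y hy
  obtain ⟨n, hn, hc⟩ := cur_span hy
  have h1 : ∀ x ∈ Submodule.span ℚ (LogSet φ), ((DL ((n : ℚ) • y)) ^ k) x = 0 := by
    intro x hx
    have : Submodule.span ℚ (LogSet φ) ≤ LinearMap.ker ((DL ((n : ℚ) • y)) ^ k) := by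
      rw [Submodule.span_le]
      intro ξ hξ
      rw [SetLike.mem_coe, LinearMap.mem_ker, ← iter_eq]
      exact key2 hV hk hG hc hξ
    exact LinearMap.mem_ker.1 (this hx)
  have h2 : DL ((n : ℚ) • y) = (n : ℚ) • DL y := by
    ext z
    simp [DL, smul_sub]
  have h3 := h1 x hx
  rw [h2, _root_.smul_pow, LinearMap.smul_apply] at h3
  have hn' : ((n : ℚ) ^ k) ≠ 0 := by
    have : (n : ℚ) ≠ 0 := by exact_mod_cast hn.ne'
    positivity
  rw [iter_eq]
  exact (smul_eq_zero.1 h3).resolve_left hn'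

end

end Pool.Agent.Helper54.Kos
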